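import Pool.Agent.H97.HV.Targets4

/-!
# WSL: the elements of a term form a set
-/

open Ordinal Cardinal Order Set
open scoped ZFSet

universe u

namespace HD.HW.H14.SL

open HD.PRK HD.HV Pool.Agent.H54.WM

theorem nv_sU {g : Ordinal.{u}} (hg : IsSuccLimit g) {x : ZFSet.{u}} (hx : NV g x) :
    NV g (⋃₀ x : ZFSet.{u}) := by
  refine nv_of hg (P := fun z x _ _ => ∃ y ∈ x, z ∈ y) ?_ hx hx hx (fun z => ?_) fun z hz => ?_
  · exact DZ.exMem (R := fun y v => v 0 ∈ y) 1 (DZ.mem 1 0)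
  · rw [ZFSet.mem_sUnion]
  · rw [ZFSet.mem_sUnion] at hz
    obtain ⟨y, hy, hz⟩ := hz
    exact nv_tra _ (nv_tra _ hx _ hy) _ hz

theorem dtup (i a b : ℕ) : D0.{u} fun v => tup [v a, v b] ∈ v i := by
  refine (D0.exMem (R := fun p v => p = tup [v a, v b]) i (D0.tup2 0 (a + 1) (b + 1))).congr
    fun v => ?_
  constructor
  · intro h
    exact ⟨_, h, rfl⟩
  · rintro ⟨p, hp, rfl⟩
    exact hp

theorem X (hTR : HD.HW.T_TR.{u}) (hTSH : HD.HW.T_TSH.{u}) : HD.HW.T_SL.{u} := by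
  intro γ ξ κ j hB t
  have hg0 : IsSuccLimit (min γ ξ) := hB.gξ
  obtain ⟨b, f, hb, hf⟩ := t
  let U : ZFSet.{u} := ⋃₀ ⋃₀ ⋃₀ f
  have hU : NV (min γ ξ) U := nv_sU hg0 (nv_sU hg0 (nv_sU hg0 hf))
  have hap : ∀ w, ap f w ⊆ U := fun w z hz => by
    unfold ap at hz
    exact (ZFSet.mem_sep.1 hz).1
  let P : ZFSet.{u} := ZFSet.powerset (ZFSet.prod (HW γ ξ) U)
  let I : Type (u + 1) := {p : HW γ κ × P // NV (min γ ξ) p.2.1}
  have hI : Small.{u} I := inferInstance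
  refine ⟨Shrink.{u} I, fun i => ⟨((equivShrink I).symm i).1.1.1,
    ((equivShrink I).symm i).1.2.1, ((equivShrink I).symm i).1.1.2,
    ((equivShrink I).symm i).2⟩, ?_⟩
  rintro ⟨a, g, ha, hg⟩ hs
  have hg' : NV (min γ ξ) (HD.HW.gr γ ξ g U) := nv_gr hg0 hg hU
  have hP : HD.HW.gr γ ξ g U ∈ P := by
    rw [ZFSet.mem_powerset]
    intro z hz
    unfold HD.HW.gr at hz
    exact (ZFSet.mem_sep.1 hz).1
  have hhod : ∀ x y : ZFSet.{u}, NV (min γ ξ) x → NV (min γ ξ) y →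
      ∀ n, NV (min γ ξ) (sv [x, y] n) := by
    intro x y hx hy n
    rcases n with _ | _ | n
    · exact hx
    · exact hy
    · exact nv_empty hg0
  have hVH : ∀ (φ : Fml) (x y : ZFSet.{u}), NV (min γ ξ) x → NV (min γ ξ) y →
      WV γ ξ (HD.HW.TS γ ξ φ (sv [x, y])) := by
    intro φ x y hx hy
    exact ⟨hTSH γ ξ hg0 φ _ (hhod x y hx hy), fun z hz => (mem_HW.1 (HD.HW.mem_TS.1 hz).1).1⟩
  obtain ⟨htr, -, -⟩ := hTR γ ξ κ j hB
  have key := (htr (fun w w' v => tup [w, w'] ∈ v 0 → tup [w, w] ∈ v 1 ∧ tup [w, w'] ∈ v 2)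
    ((dtup 2 0 1).imp ((dtup 3 0 0).and (dtup 4 0 1)))
    (sv [HD.HW.TS γ ξ (.mem 0 1) (sv [g, f]), HD.HW.TS γ ξ (.eq 0 1)
      (sv [g, HD.HW.gr γ ξ g U]), HD.HW.TS γ ξ (.mem 0 1) (sv [HD.HW.gr γ ξ g U, f])]) (by
        intro n
        rcases n with _ | _ | _ | n
        · exact hVH _ _ _ hg hf
        · exact hVH _ _ _ hg hg'
        · exact hVH _ _ _ hg' hf
        · exact ⟨nv_empty hg0, fun z hz => absurd hz (ZFSet.notMem_empty z)⟩)).1 (by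
    intro w hw w' hw' h
    have h1 : tup [w, w'] ∈ HD.HW.TS γ ξ (.mem 0 1) (sv [g, f]) := h
    have h2 : ap g w ∈ ap f w' := by
      have h3 := (HD.HW.mem_TS.1 h1).2
      have h4 : ap (sv [g, f] 0) (pr 0 (tup [w, w'])) ∈ ap (sv [g, f] 1) (pr 1 (tup [w, w'])) := h3
      rw [pr_tup, pr_tup] at h4
      exact h4
    have h5 : ap (HD.HW.gr γ ξ g U) w = ap g w := HD.HW.ap_gr hw (hap _ h2)
    constructor
    · show tup [w, w] ∈ HD.HW.TS γ ξ (.eq 0 1) (sv [g, HD.HW.gr γ ξ g U])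
      refine HD.HW.mem_TS.2 ⟨tup_mem_HW hg0 hB.lξ (by simp [hw]), ?_⟩
      show ap (sv [g, HD.HW.gr γ ξ g U] 0) (pr 0 (tup [w, w])) =
        ap (sv [g, HD.HW.gr γ ξ g U] 1) (pr 1 (tup [w, w]))
      rw [pr_tup, pr_tup]
      exact h5.symm
    · show tup [w, w'] ∈ HD.HW.TS γ ξ (.mem 0 1) (sv [HD.HW.gr γ ξ g U, f])
      refine HD.HW.mem_TS.2 ⟨tup_mem_HW hg0 hB.lξ (by simp [hw, hw']), ?_⟩
      show ap (sv [HD.HW.gr γ ξ g U, f] 0) (pr 0 (tup [w, w'])) ∈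
        ap (sv [HD.HW.gr γ ξ g U, f] 1) (pr 1 (tup [w, w']))
      rw [pr_tup, pr_tup]
      show ap (HD.HW.gr γ ξ g U) w ∈ ap f w'
      rw [h5]
      exact h2)
  have h6 := key a ha b hb hs
  refine ⟨equivShrink I ⟨(⟨a, ha⟩, ⟨HD.HW.gr γ ξ g U, hP⟩), hg'⟩, ?_, ?_⟩
  · unfold HD.HW.ME
    dsimp only
    rw [Equiv.symm_apply_apply]
    exact h6.2
  · unfold HD.HW.MQ
    dsimp only
    rw [Equiv.symm_apply_apply]
    exact h6.1

end HD.HW.H14.SL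

namespace HD.HW.H14

theorem pf_SL (h1 : HD.HW.T_TR.{u}) (h2 : HD.HW.T_TSH.{u}) : HD.HW.T_SL.{u} := SL.X h1 h2

end HD.HW.H14
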