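import Pool.Agent.H97.HV.Targets4

/-!
# WTSH: the truth sets are in the class
-/

open Ordinal Cardinal Order Set
open scoped ZFSet

universe u

namespace HD.HW.H14.TSH

open HD.PRK HD.HV Pool.Agent.H54.WM

/-- terms: variables, and values of entries of variables at entries of variables -/
inductive Ter : Type
  | vr (i : ℕ) : Ter
  | fn (q n m i : ℕ) : Ter

/-- value of a term -/
noncomputable def tv (v : ℕ → ZFSet.{u}) : Ter → ZFSet.{u}
  | .vr i => v i
  | .fn q n m i => ap (pr n (v q)) (pr m (v i))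

/-- shift of the variables of a term -/
def sh : Ter → Ter
  | .vr i => .vr (i + 1)
  | .fn q n m i => .fn (q + 1) n m (i + 1)

theorem tv_sh (v : ℕ → ZFSet.{u}) (t : Ter) : tv v (sh t) = tv (fun n => v (n + 1)) t := by
  cases t <;> rfl

theorem dz_tv (t : Ter) (k : ℕ) : DZ.{u} fun v => v k = tv v t := by
  rcases t with i | ⟨q, n, m, i⟩
  · exact DZ.eq k i
  · refine (DZ.ex (R := fun w v => w = pr n (v q) ∧ ∃ w', w' = pr m (v i) ∧ v k = ap w w')
      ((D0.pr n 0 (q + 1)).dz.and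
        (DZ.ex (R := fun w' v => w' = pr m (v (i + 1)) ∧ v (k + 1) = ap (v 0) w')
          ((D0.pr m 0 (i + 2)).dz.and (D0.ap (k + 2) 1 0).dz)))).congr fun v => ?_
    constructor
    · intro h
      exact ⟨_, rfl, _, rfl, h⟩
    · rintro ⟨a, rfl, b, rfl, h⟩
      exact h

theorem dz_rel (s t : Ter) {P : ZFSet.{u} → ZFSet.{u} → Prop}
    (hP : DZ.{u} fun v => P (v 1) (v 0)) : DZ.{u} fun v => P (tv v s) (tv v t) := by
  have h1 : DZ.{u} fun v => v 0 = tv (fun n => v (n + 1)) s :=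
    (dz_tv (sh s) 0).congr fun v => by rw [tv_sh]
  have h2 : DZ.{u} fun v => v 0 = tv (fun n => v (n + 2)) t :=
    (dz_tv (sh (sh t)) 0).congr fun v => by rw [tv_sh, tv_sh]
  refine (DZ.ex (R := fun a v => a = tv v s ∧ ∃ b, b = tv v t ∧ P a b) (h1.and
    (DZ.ex (R := fun b v => b = tv (fun n => v (n + 1)) t ∧ P (v 0) b) (h2.and hP)))).congr
    fun v => ?_
  constructor
  · intro h
    exact ⟨_, rfl, _, rfl, h⟩
  · rintro ⟨a, rfl, b, rfl, h⟩
    exact h

/-- the shifted sequence of terms under a quantifier -/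
def shs (T : ℕ → Ter) : ℕ → Ter
  | 0 => .vr 0
  | n + 1 => sh (T n)

theorem dz_sat (g : Ordinal.{u}) (φ : Fml) : ∀ T : ℕ → Ter,
    DZ.{u} fun v => Sat (NV g) φ fun n => tv v (T n) := by
  induction φ with
  | mem i l => exact fun T => dz_rel (P := fun a b => a ∈ b) (T i) (T l) (DZ.mem 1 0)
  | eq i l => exact fun T => dz_rel (P := fun a b => a = b) (T i) (T l) (DZ.eq 1 0)
  | neg φ ih => exact fun T => (ih T).not
  | and φ ψ ih1 ih2 => exact fun T => (ih1 T).and (ih2 T)
  | ex φ ih =>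
    intro T
    refine DZ.ex (R := fun x v => NV g x ∧ Sat (NV g) φ (cons x fun n => tv v (T n)))
      ((dz_nv g 0).and ((ih (shs T)).congr fun v => ?_))
    have e : (fun n => tv v (shs T n)) = cons (v 0) fun n => tv (fun n => v (n + 1)) (T n) := by
      funext n
      rcases n with _ | n
      · rfl
      · exact tv_sh v (T n)
    rw [e]

theorem X : HD.HW.T_TSH.{u} := by
  intro γ ξ hg φ f hf
  obtain ⟨p, hp⟩ : ∃ p, p = tup ((List.range (bd φ)).map f) := ⟨_, rfl⟩
  have hpN : NV (min γ ξ) p := by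
    rw [hp]
    refine nv_tup hg fun x hx => ?_
    obtain ⟨n, -, rfl⟩ := List.mem_map.1 hx
    exact hf n
  refine nv_of hg (P := fun z h p _ => z ∈ h ∧
    Sat (NV (min γ ξ)) φ (fun n => ap (pr n p) (pr n z))) ?_ (nv_HW hg) hpN hpN (fun z => ?_)
    fun z hz => (mem_HW.1 (HD.HW.mem_TS.1 hz).1).2
  · exact (DZ.mem 0 1).and (dz_sat (min γ ξ) φ (fun n => .fn 2 n n 0))
  · rw [HD.HW.mem_TS]
    refine and_congr_right fun _ => sat_bd _ φ _ _ fun n hn => ?_
    have e : pr n p = f n := by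
      rw [hp, pr_tup]
      unfold sv
      simp [hn]
    rw [e]

end HD.HW.H14.TSH

namespace HD.HW.H14

theorem pf_TSH : HD.HW.T_TSH.{u} := TSH.X

end HD.HW.H14
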